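import Pool.Agent.Helper319LP.Pu

/-!
# The algebraic closure of `k₀(t)` inside the Puiseux series in `t - a`
-/

set_option autoImplicit false

namespace Pool.Agent.Zk17.FG

open Polynomial Pool.Agent.Helper165.P1 LP319

open scoped RatFunc

/-- the expansion at `t = a` -/
theorem exists_phi {k₀ k : Type} [Field k₀] [Field k] [Algebra k₀ k] (t : k) (ht : Transcendental k₀ t)
    (htop : IntermediateField.adjoin k₀ {t} = ⊤) (a : k₀) :
    ∃ φ : k →+* LaurentSeries k₀, (∀ c : k₀, φ (algebraMap k₀ k c) = HahnSeries.single 0 c) ∧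
      ∀ P : k₀[X], φ (aeval t P) = HahnSeries.ofPowerSeries ℤ k₀ ((P.comp (X + C a) : k₀[X]) : PowerSeries k₀) := by
  set u : k := t - algebraMap k₀ k a with hu
  have htu : t = u + algebraMap k₀ k a := by rw [hu]; ring
  have hut : Transcendental k₀ u := by
    intro h
    apply ht
    rw [htu]
    exact h.add (isAlgebraic_algebraMap a)
  have hutop : IntermediateField.adjoin k₀ {u} = ⊤ := by
    rw [eq_top_iff, ← htop, IntermediateField.adjoin_le_iff]
    intro x hx
    rw [Set.mem_singleton_iff] at hx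
    rw [hx, htu]
    exact add_mem (IntermediateField.mem_adjoin_simple_self k₀ u) (IntermediateField.algebraMap_mem _ a)
  let E : RatFunc k₀ ≃ₐ[k₀] k := (RatFunc.algEquivOfTranscendental u hut).trans
    ((IntermediateField.equivOfEq hutop).trans IntermediateField.topEquiv)
  have hE : ∀ g : k₀[X], E (algebraMap k₀[X] (RatFunc k₀) g) = aeval u g := by
    intro g
    show (((RatFunc.algEquivOfTranscendental u hut) (algebraMap k₀[X] (RatFunc k₀) g) : IntermediateField.adjoin k₀ {u}) : k) = _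
    rw [RatFunc.algEquivOfTranscendental_algebraMap]
    have h1 := Polynomial.aeval_algebraMap_apply k (IntermediateField.AdjoinSimple.gen k₀ u) g
    rw [IntermediateField.AdjoinSimple.algebraMap_gen] at h1
    rw [h1]
    rfl
  have hES : ∀ g : k₀[X], E.symm (aeval u g) = algebraMap k₀[X] (RatFunc k₀) g := by
    intro g
    rw [← hE, AlgEquiv.symm_apply_apply]
  let φ : k →+* LaurentSeries k₀ := (algebraMap (RatFunc k₀) (LaurentSeries k₀)).comp (E.symm : k →+* RatFunc k₀)
  have hφ : ∀ g : k₀[X], φ (aeval u g) = HahnSeries.ofPowerSeries ℤ k₀ (g : PowerSeries k₀) := by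
    intro g
    show algebraMap (RatFunc k₀) (LaurentSeries k₀) (E.symm (aeval u g)) = _
    rw [hES, RatFunc.coe_coe]
    rfl
  refine ⟨φ, fun c => ?_, fun P => ?_⟩
  · have h1 := hφ (C c)
    rw [aeval_C] at h1
    rw [h1, Polynomial.coe_C, HahnSeries.ofPowerSeries_C]
    rfl
  · rw [← hφ]
    congr 1
    rw [aeval_comp]
    simp only [map_add, aeval_X, aeval_C]
    rw [← htu]

section main

variable {k₀ k B₀ B : Type} [Field k₀] [Field k] [Field B₀] [Field B] [Algebra k₀ B₀] [Algebra k B]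

theorem crit [IsAlgClosed B] {ι : B →+* HQ B₀} {P : k[X]} (hP : P ≠ 0) {y : HQ B₀}
    (hy : eval₂ (ι.comp (algebraMap k B)) y P = 0) : ∃ x, ι x = y := by
  have h1 : (P.map (algebraMap k B)).Splits := IsAlgClosed.splits _
  have h2 : P.map (algebraMap k B) ≠ 0 := (Polynomial.map_ne_zero_iff
    (algebraMap k B).injective).mpr hP
  have h3 : eval y ((P.map (algebraMap k B)).map ι) = 0 := by
    rw [Polynomial.map_map, eval_map]; exact hy
  rw [h1.eq_prod_roots, Polynomial.map_mul, Polynomial.map_multiset_prod, eval_mul,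
    Polynomial.map_C, eval_C, mul_eq_zero] at h3
  rcases h3 with h3 | h3
  · exfalso
    rw [map_eq_zero] at h3
    exact h2 (leadingCoeff_eq_zero.mp h3)
  · rw [eval_multiset_prod, Multiset.prod_eq_zero_iff, Multiset.mem_map] at h3
    obtain ⟨p, hp, hp2⟩ := h3
    rw [Multiset.mem_map] at hp
    obtain ⟨q, hq, rfl⟩ := hp
    rw [Multiset.mem_map] at hq
    obtain ⟨a, _, rfl⟩ := hq
    refine ⟨a, ?_⟩
    simp at hp2
    exact (sub_eq_zero.mp hp2).symm

/-- the embedding is defined over `φ` -/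
def Over (φ : k →+* LaurentSeries k₀) (ι : B →+* HQ B₀) : Prop :=
  ∀ x : k, ι (algebraMap k B x) = emb k₀ B₀ (φ x)

theorem exists_over [IsAlgClosed B₀] [CharZero B₀] [Algebra.IsAlgebraic k B]
    (φ : k →+* LaurentSeries k₀) : ∃ ι : B →+* HQ B₀, Over φ ι := by
  let j : k →+* Pui B₀ := (eP 1 one_pos).comp ((hmap (algebraMap k₀ B₀)).comp φ)
  obtain ⟨l, hl⟩ := exists_lift (Kb := B) j
  refine ⟨(Pui B₀).subtype.comp l, ?_⟩
  intro x
  change ((l (algebraMap k B x) : Pui B₀) : HQ B₀) = _
  rw [hl]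
  rfl

variable {φ : k →+* LaurentSeries k₀} {ι : B →+* HQ B₀}

theorem Over.exists_hmap [IsAlgClosed B] [Algebra.IsAlgebraic k B] (h : Over φ ι)
    (σ : B₀ ≃ₐ[k₀] B₀) (x : B) : ∃ y, ι y = hmap (σ : B₀ →+* B₀) (ι x) := by
  have hP : minpoly k x ≠ 0 := minpoly.ne_zero (Algebra.IsAlgebraic.isAlgebraic x).isIntegral
  refine crit hP ?_
  have h1 : ι.comp (algebraMap k B) =
      (hmap (σ : B₀ →+* B₀)).comp (ι.comp (algebraMap k B)) := by
    ext1 y
    simp only [RingHom.comp_apply]
    rw [h, emb_hmap]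
  rw [h1, ← Polynomial.hom_eval₂, ← Polynomial.hom_eval₂, ← Polynomial.aeval_def, minpoly.aeval,
    map_zero, map_zero]

/-- The coefficientwise action of the Galois group. -/
theorem Over.exists_s [IsAlgClosed B] [Algebra.IsAlgebraic k B] (h : Over φ ι) :
    ∃ s : (B₀ ≃ₐ[k₀] B₀) →* (B ≃ₐ[k] B), ∀ σ x, ι (s σ x) = hmap (σ : B₀ →+* B₀) (ι x) := by
  have hinj : Function.Injective ι := ι.injective
  have h1 : ∀ σ : B₀ ≃ₐ[k₀] B₀, ∃ g : B →+* B, ∀ x, ι (g x) = hmap (σ : B₀ →+* B₀) (ι x) :=
    fun σ => liftThrough ((hmap (σ : B₀ →+* B₀)).comp ι) ι hinj (h.exists_hmap σ)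
  choose g hg using h1
  have hg1 : ∀ σ τ x, g σ (g τ x) = g (σ * τ) x := by
    intro σ τ x
    apply hinj
    rw [hg, hg, hg, hmap_mul_apply]
  have hgone : ∀ x, g 1 x = x := by
    intro x
    apply hinj
    rw [hg]
    ext q; rfl
  have hgK : ∀ σ (x : k), g σ (algebraMap k B x) = algebraMap k B x := by
    intro σ x
    apply hinj
    rw [hg, h, emb_hmap]
  refine ⟨
    { toFun := fun σ => AlgEquiv.ofRingEquiv (f :=
        { toFun := g σ
          invFun := g σ⁻¹
          left_inv := fun x => by rw [hg1, inv_mul_cancel, hgone]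
          right_inv := fun x => by rw [hg1, mul_inv_cancel, hgone]
          map_mul' := map_mul (g σ)
          map_add' := map_add (g σ) }) (hgK σ)
      map_one' := by ext x; exact hgone x
      map_mul' := fun σ τ => by ext x; exact (hg1 σ τ x).symm }, ?_⟩
  intro σ x
  exact hg σ x

/-- Each element of the algebraic closure has its coefficients in a finite extension. -/
theorem smooth [Algebra.IsAlgebraic k B] {s : (B₀ ≃ₐ[k₀] B₀) →* (B ≃ₐ[k] B)}
    (hs : ∀ σ x, ι (s σ x) = hmap (σ : B₀ →+* B₀) (ι x)) (x : B) :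
    ∃ S : Finset B₀, ∀ τ : B₀ ≃ₐ[k₀] B₀, (∀ y ∈ S, τ y = y) → s τ x = x := by
  classical
  have hP : minpoly k x ≠ 0 := minpoly.ne_zero (Algebra.IsAlgebraic.isAlgebraic x).isIntegral
  -- exponents which separate the roots from `x`
  have hw : ∀ y : B, ∃ q : ℚ, y ≠ x → (ι y).coeff q ≠ (ι x).coeff q := by
    intro y
    by_cases hy : y = x
    · exact ⟨0, fun h => absurd hy h⟩
    · have h1 : ι y ≠ ι x := fun h => hy (ι.injective h)
      by_contra hcon
      push Not at hcon
      apply h1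
      ext q
      exact (hcon q).2
  choose q hq using hw
  refine ⟨((minpoly k x).aroots B).toFinset.image fun y => (ι x).coeff (q y), fun τ hτ => ?_⟩
  by_contra hcon
  have h1 : s τ x ∈ ((minpoly k x).aroots B).toFinset := by
    rw [Multiset.mem_toFinset, mem_aroots]
    refine ⟨hP, ?_⟩
    rw [Polynomial.aeval_algHom_apply, minpoly.aeval, map_zero]
  apply hq _ hcon
  rw [hs]
  exact hτ _ (Finset.mem_image.mpr ⟨_, h1, rfl⟩)

open scoped Topology in
theorem continuous_s [Algebra.IsAlgebraic k B] [Algebra.IsAlgebraic k₀ B₀] {s : (B₀ ≃ₐ[k₀] B₀) →* (B ≃ₐ[k] B)}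
    (hs : ∀ σ x, ι (s σ x) = hmap (σ : B₀ →+* B₀) (ι x)) : Continuous s := by
  classical
  refine continuous_of_continuousAt_one s ?_
  rw [ContinuousAt, map_one]
  intro U hU
  rw [krullTopology_mem_nhds_one_iff] at hU
  obtain ⟨E, hE, hEU⟩ := hU
  obtain ⟨T, hT⟩ := IntermediateField.essFiniteType_iff.1 (inferInstance : Algebra.EssFiniteType k E)
  choose S hS using fun x : B => smooth hs x
  rw [Filter.mem_map, krullTopology_mem_nhds_one_iff]
  refine ⟨IntermediateField.adjoin k₀ (T.biUnion S : Set B₀), ?_, ?_⟩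
  · exact IntermediateField.finiteDimensional_adjoin fun x _ => (Algebra.IsAlgebraic.isAlgebraic x).isIntegral
  · intro τ hτ
    apply hEU
    rw [← hT]
    have h1 : ∀ y ∈ T.biUnion S, τ y = y := fun y hy =>
      hτ ⟨y, IntermediateField.subset_adjoin k₀ _ (by exact_mod_cast hy)⟩
    have h2 : ∀ x ∈ T, s τ x = x := fun x hx => hS x τ fun y hy => h1 y (Finset.mem_biUnion.2 ⟨x, hx, hy⟩)
    show s τ ∈ (IntermediateField.adjoin k (T : Set B)).fixingSubgroup
    rw [IntermediateField.mem_fixingSubgroup_iff]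
    intro x hx
    induction hx using IntermediateField.adjoin_induction with
    | mem x hx => exact h2 x hx
    | algebraMap x => exact (s τ).commutes x
    | add x y _ _ hx hy => rw [map_add, hx, hy]
    | inv x _ hx => rw [map_inv₀, hx]
    | mul x y _ _ hx hy => rw [map_mul, hx, hy]

end main

end Pool.Agent.Zk17.FG
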