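import Pool.Agent.Zk17.FG.Pui
import Pool.Agent.Zk12.FG.Stm

/-!
# Part A1 of project FG: the decomposition group of a place `t = a`
-/

set_option autoImplicit false

namespace Pool.Agent.Zk17.FG

open Polynomial Pool.Agent.Helper165.P1 LP319

/-- the leading coefficient of a power series with constant term `c ≠ 0` -/
theorem lead_emb {k₀ B₀ : Type} [Field k₀] [Field B₀] [Algebra k₀ B₀] (f : PowerSeries k₀)
    (hf : PowerSeries.constantCoeff f ≠ 0) :
    (emb k₀ B₀ (HahnSeries.ofPowerSeries ℤ k₀ f)).leadingCoeff = algebraMap k₀ B₀ (PowerSeries.constantCoeff f) := by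
  have h0 : (emb k₀ B₀ (HahnSeries.ofPowerSeries ℤ k₀ f)).coeff 0 = algebraMap k₀ B₀ (PowerSeries.constantCoeff f) := by
    have h1 := emb_coeff (k := k₀) (kb := B₀) (HahnSeries.ofPowerSeries ℤ k₀ f) 0
    rw [Int.cast_zero] at h1
    rw [h1, PowerSeries.coeff_coe]
    simp
  have hne : (emb k₀ B₀ (HahnSeries.ofPowerSeries ℤ k₀ f)).coeff 0 ≠ 0 := by
    rw [h0]
    exact (_root_.map_ne_zero _).2 hf
  have hx : emb k₀ B₀ (HahnSeries.ofPowerSeries ℤ k₀ f) ≠ 0 := by
    intro h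
    rw [h] at hne
    exact hne rfl
  have hord : (emb k₀ B₀ (HahnSeries.ofPowerSeries ℤ k₀ f)).order = 0 := by
    refine le_antisymm (HahnSeries.order_le_of_coeff_ne_zero hne) ?_
    by_contra hcon
    rw [not_le] at hcon
    set q := (emb k₀ B₀ (HahnSeries.ofPowerSeries ℤ k₀ f)).order with hq
    have h2 : (emb k₀ B₀ (HahnSeries.ofPowerSeries ℤ k₀ f)).coeff q ≠ 0 := HahnSeries.coeff_order_eq_zero.not.mpr hx
    apply h2
    by_cases h : ∃ n : ℤ, (n : ℚ) = q
    · obtain ⟨n, hn⟩ := h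
      have h3 : n < 0 := by
        rw [← hn] at hcon
        exact_mod_cast hcon
      rw [← hn, emb_coeff, PowerSeries.coeff_coe, if_pos h3, map_zero]
    · push Not at h
      exact emb_coeff_ne _ q h
  rw [HahnSeries.leadingCoeff_eq, hord, h0]

theorem split1 : Pool.Agent.Zk12.FG.S_SPLIT1 := by
  intro k₀ k B₀ B _ _ _ _ _ _ _ _ _ _ _ _ j t ht htop a
  have : IsAlgClosed B₀ := IsAlgClosure.isAlgClosed k₀
  have : IsAlgClosed B := IsAlgClosure.isAlgClosed k
  have : Algebra.IsAlgebraic k₀ B₀ := IsAlgClosure.isAlgebraic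
  have : Algebra.IsAlgebraic k B := IsAlgClosure.isAlgebraic
  have : CharZero B₀ := charZero_of_injective_algebraMap (algebraMap k₀ B₀).injective
  obtain ⟨φ, hφ1, hφ2⟩ := exists_phi t ht htop a
  obtain ⟨ι₀, hι₀⟩ := exists_over (B₀ := B₀) (B := B) φ
  have hC : ∀ c : k₀, emb k₀ B₀ (φ (algebraMap k₀ k c)) = HahnSeries.single 0 (algebraMap k₀ B₀ c) := by
    intro c
    rw [hφ1]
    have := emb_single (k := k₀) (kb := B₀) 0 c
    simpa using this
  -- the constants
  have h1 : ∀ z : B₀, ∃ c : B₀, (HahnSeries.C : B₀ →+* HQ B₀) c = ι₀ (j z) := by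
    intro z
    have hP : minpoly k₀ z ≠ 0 := minpoly.ne_zero (Algebra.IsAlgebraic.isAlgebraic z).isIntegral
    refine mem_of_root (HahnSeries.C : B₀ →+* HQ B₀) ((minpoly k₀ z).map (algebraMap k₀ B₀))
      ((Polynomial.map_ne_zero_iff (algebraMap k₀ B₀).injective).mpr hP) _ ?_
    rw [eval₂_map]
    have h2 : (HahnSeries.C : B₀ →+* HQ B₀).comp (algebraMap k₀ B₀) =
        (ι₀.comp (j : B₀ →+* B)).comp (algebraMap k₀ B₀) := by
      ext1 c
      simp only [RingHom.comp_apply, RingHom.coe_coe, AlgHom.commutes]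
      rw [IsScalarTower.algebraMap_apply k₀ k B, hι₀, hC]
      rfl
    have h3 : ι₀ (j z) = (ι₀.comp (j : B₀ →+* B)) z := rfl
    rw [h2, h3, ← Polynomial.hom_eval₂, ← Polynomial.aeval_def, minpoly.aeval, map_zero]
  obtain ⟨τ₀, hτ₀⟩ := liftThrough (ι₀.comp (j : B₀ →+* B)) (HahnSeries.C : B₀ →+* HQ B₀)
    (HahnSeries.C : B₀ →+* HQ B₀).injective h1
  let τ₁ : B₀ →ₐ[k₀] B₀ := { τ₀ with
    commutes' := fun c => by
      apply (HahnSeries.C : B₀ →+* HQ B₀).injective
      show (HahnSeries.C : B₀ →+* HQ B₀) (τ₀ (algebraMap k₀ B₀ c)) = _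
      rw [hτ₀]
      simp only [RingHom.comp_apply, RingHom.coe_coe, AlgHom.commutes]
      rw [IsScalarTower.algebraMap_apply k₀ k B, hι₀, hC]
      rfl }
  let τ : B₀ ≃ₐ[k₀] B₀ := AlgEquiv.ofBijective τ₁ (Algebra.IsAlgebraic.algHom_bijective τ₁)
  have hτ : ∀ z, HahnSeries.single (0 : ℚ) (τ z) = ι₀ (j z) := fun z => hτ₀ z
  -- the corrected embedding
  let ι : B →+* HQ B₀ := (hmap ((τ.symm : B₀ ≃ₐ[k₀] B₀) : B₀ →+* B₀)).comp ι₀
  have hι : Over φ ι := by
    intro x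
    show hmap _ (ι₀ (algebraMap k B x)) = _
    rw [hι₀, emb_hmap]
  have hj : ∀ z, ι ((j : B₀ →+* B) z) = HahnSeries.single 0 z := by
    intro z
    show hmap _ (ι₀ (j z)) = _
    rw [← hτ, hmap_single]
    congr 1
    exact τ.symm_apply_apply z
  obtain ⟨s, hs⟩ := hι.exists_s
  have hsj : ∀ g z, s g (j z) = j (g z) := by
    intro g z
    apply ι.injective
    have h2 := hj z
    have h3 := hj (g z)
    simp only [RingHom.coe_coe] at h2 h3
    rw [hs, h2, h3, hmap_single]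
    rfl
  refine ⟨s, continuous_s hs, hsj, ?_⟩
  intro P m γ hP hm hγ
  have hm0 : m ≠ 0 := hm.ne'
  -- the leading coefficient
  have hlc : lcK ι (algebraMap k B (aeval t P)) = algebraMap k₀ B₀ (P.eval a) := by
    have hc : PowerSeries.constantCoeff ((P.comp (X + C a) : k₀[X]) : PowerSeries k₀) = P.eval a := by
      rw [← PowerSeries.coeff_zero_eq_constantCoeff_apply, Polynomial.coeff_coe, Polynomial.coeff_zero_eq_eval_zero,
        eval_comp]
      simp
    rw [lcK_apply, hι, hφ2, lead_emb _ (by rw [hc]; exact hP), hc]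
  set r : B₀ := lcK ι γ with hr
  have hrm : r ^ m = algebraMap k₀ B₀ (P.eval a) := by
    rw [hr, ← map_pow, hγ, hlc]
  have hPa : algebraMap k₀ B₀ (P.eval a) ≠ 0 := (_root_.map_ne_zero _).2 hP
  have hr0 : r ≠ 0 := by
    intro h
    rw [h, zero_pow hm0] at hrm
    exact hPa hrm.symm
  refine ⟨r, hrm, fun g => ?_⟩
  have hjr : j r ≠ 0 := (_root_.map_ne_zero _).2 hr0
  have hlj : ∀ c, lcK ι (j c) = c := fun c => lcK_alg hj c
  set δ : B := γ / j r with hδ
  have hlδ : lcK ι δ = 1 := by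
    rw [hδ, map_div₀, hlj, ← hr, div_self hr0]
  have hδ0 : δ ≠ 0 := by
    intro h
    rw [h, map_zero] at hlδ
    exact zero_ne_one hlδ
  have hδm : δ ^ m = algebraMap k B (aeval t P / algebraMap k₀ k (P.eval a)) := by
    rw [hδ, div_pow, hγ, map_div₀, ← map_pow, hrm, AlgHom.commutes, ← IsScalarTower.algebraMap_apply k₀ k B]
  have h5 : lcK ι (s g δ) = 1 := by
    rw [lcK_apply, hs, hmap_leadingCoeff, ← lcK_apply, hlδ, map_one]
  have h6 : (s g δ / δ) ^ m = 1 := by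
    rw [div_pow, ← map_pow, hδm, AlgEquiv.commutes, ← hδm, div_self (pow_ne_zero _ hδ0)]
  have h7 : s g δ / δ = 1 :=
    lc_uniq (a := (j : B₀ →+* B)) hj m hm0 _ (by rw [map_div₀, h5, hlδ, div_one]) h6
  exact (div_eq_one_iff_eq hδ0).1 h7

end Pool.Agent.Zk17.FG
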