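import Pool.Agent.Zk17.FG.Split1

/-!
# Part A2 of project FG: the decomposition group of a rational point of the affine space
-/

set_option autoImplicit false

namespace Pool.Agent.Zk17.FG

open Pool.Agent.Zk12.FG

section pols

variable {K k : Type} [Field K] [Field k] [Algebra K k] {n : ℕ} (k' : IntermediateField K k)
  (t' : Fin n → k')

/-- `P` as a polynomial in the variable `0` over `k'` -/
noncomputable def toPol (P : MvPolynomial (Fin (n + 1)) K) : Polynomial k' :=
  (MvPolynomial.finSuccEquiv K n P).map (MvPolynomial.aeval t' : MvPolynomial (Fin n) K →ₐ[K] k').toRingHom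

theorem toPol_aeval (t : Fin (n + 1) → k) (ht : ∀ i, (t' i : k) = t i.succ)
    (P : MvPolynomial (Fin (n + 1)) K) :
    Polynomial.aeval (t 0) (toPol k' t' P) = MvPolynomial.aeval t P := by
  have h : ((Polynomial.aeval (t 0) : Polynomial k' →ₐ[k'] k) : Polynomial k' →+* k).comp
      ((Polynomial.mapRingHom (MvPolynomial.aeval t' : MvPolynomial (Fin n) K →ₐ[K] k').toRingHom).comp
        (MvPolynomial.finSuccEquiv K n : MvPolynomial (Fin (n + 1)) K →+* Polynomial (MvPolynomial (Fin n) K))) =
      (MvPolynomial.aeval t : MvPolynomial (Fin (n + 1)) K →ₐ[K] k) := by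
    apply MvPolynomial.ringHom_ext
    · intro c
      simp [MvPolynomial.finSuccEquiv_apply]
    · intro i
      refine Fin.cases ?_ (fun i => ?_) i
      · simp [MvPolynomial.finSuccEquiv_X_zero]
      · simp only [RingHom.comp_apply, RingHom.coe_coe, MvPolynomial.finSuccEquiv_X_succ,
          Polynomial.coe_mapRingHom, Polynomial.map_C, Polynomial.aeval_C, MvPolynomial.aeval_X]
        show algebraMap k' k (MvPolynomial.aeval t' (MvPolynomial.X i)) = _
        rw [MvPolynomial.aeval_X]
        exact ht i
  exact congrArg (fun f : MvPolynomial (Fin (n + 1)) K →+* k => f P) h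

/-- the specialisation of the variable `0` -/
noncomputable def spec0 (c : K) (P : MvPolynomial (Fin (n + 1)) K) : MvPolynomial (Fin n) K :=
  (MvPolynomial.finSuccEquiv K n P).eval (MvPolynomial.C c)

theorem toPol_eval (c : K) (P : MvPolynomial (Fin (n + 1)) K) :
    (toPol k' t' P).eval (algebraMap K k' c) = MvPolynomial.aeval t' (spec0 c P) := by
  have h1 : algebraMap K k' c = (MvPolynomial.aeval t' : MvPolynomial (Fin n) K →ₐ[K] k').toRingHom
      (MvPolynomial.C c) := by
    show _ = MvPolynomial.aeval t' (MvPolynomial.C c)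
    rw [MvPolynomial.aeval_C]
  rw [toPol, Polynomial.eval_map, h1, Polynomial.eval₂_hom]
  rfl

theorem eval_spec0 (a : Fin (n + 1) → K) (P : MvPolynomial (Fin (n + 1)) K) :
    MvPolynomial.eval (fun i : Fin n => a i.succ) (spec0 (a 0) P) = MvPolynomial.eval a P := by
  have h1 : (Fin.cons (a 0) (fun i : Fin n => a i.succ) : Fin (n + 1) → K) = a := by
    funext i
    refine Fin.cases ?_ (fun i => ?_) i <;> simp
  have h2 := MvPolynomial.eval_eq_eval_mv_eval' (fun i : Fin n => a i.succ) (a 0) P
  rw [h1] at h2
  rw [h2, spec0, Polynomial.eval_map, ← Polynomial.eval₂_hom (MvPolynomial.eval fun i : Fin n => a i.succ),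
    MvPolynomial.eval_C]

end pols

theorem continuous_of_smooth {k₀ k B₀ B : Type} [Field k₀] [Field k] [Field B₀] [Field B] [Algebra k₀ B₀]
    [Algebra k B] [Algebra.IsAlgebraic k₀ B₀] {s : (B₀ ≃ₐ[k₀] B₀) →* (B ≃ₐ[k] B)}
    (hs : ∀ x : B, ∃ S : Finset B₀, ∀ τ : B₀ ≃ₐ[k₀] B₀, (∀ y ∈ S, τ y = y) → s τ x = x) : Continuous s := by
  classical
  refine continuous_of_continuousAt_one s ?_
  rw [ContinuousAt, map_one]
  intro U hU
  rw [krullTopology_mem_nhds_one_iff] at hU
  obtain ⟨E, hE, hEU⟩ := hU
  obtain ⟨T, hT⟩ := IntermediateField.essFiniteType_iff.1 (inferInstance : Algebra.EssFiniteType k E)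
  choose S hS using hs
  rw [Filter.mem_map, krullTopology_mem_nhds_one_iff]
  refine ⟨IntermediateField.adjoin k₀ (T.biUnion S : Set B₀), ?_, ?_⟩
  · exact IntermediateField.finiteDimensional_adjoin fun x _ => (Algebra.IsAlgebraic.isAlgebraic x).isIntegral
  · intro τ hτ
    apply hEU
    rw [← hT]
    have h1 : ∀ y ∈ T.biUnion S, τ y = y := fun y hy =>
      hτ ⟨y, IntermediateField.subset_adjoin k₀ _ (by exact_mod_cast hy)⟩
    have h2 : ∀ x ∈ T, s τ x = x := fun x hx => hS x τ fun y hy => h1 y (Finset.mem_biUnion.2 ⟨x, hx, hy⟩)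
    show s τ ∈ (IntermediateField.adjoin k (T : Set B)).fixingSubgroup
    rw [IntermediateField.mem_fixingSubgroup_iff]
    intro x hx
    induction hx using IntermediateField.adjoin_induction with
    | mem x hx => exact h2 x hx
    | algebraMap x => exact (s τ).commutes x
    | add x y _ _ hx hy => rw [map_add, hx, hy]
    | inv x _ hx => rw [map_inv₀, hx]
    | mul x y _ _ hx hy => rw [map_mul, hx, hy]

theorem splitN : S_SPLITN := by
  intro n
  induction n with
  | zero =>
    intro K k B₀ B _ _ _ _ _ _ _ _ _ _ _ _ j t ht a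
    have hB : IsAlgClosed B₀ := IsAlgClosure.isAlgClosed K
    have hBa : Algebra.IsAlgebraic k B := IsAlgClosure.isAlgebraic
    -- `k = K`
    have hbot : (⊥ : IntermediateField K k) = ⊤ := by
      rw [← ht.2, Set.range_eq_empty, IntermediateField.adjoin_empty]
    have hsurj : ∀ x : k, ∃ c : K, algebraMap K k c = x := by
      intro x
      have : x ∈ (⊥ : IntermediateField K k) := by rw [hbot]; trivial
      exact IntermediateField.mem_bot.1 this
    have hKk : Algebra.IsAlgebraic K k := ⟨fun x => by
      obtain ⟨c, rfl⟩ := hsurj x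
      exact isAlgebraic_algebraMap c⟩
    have hKB : Algebra.IsAlgebraic K B := Algebra.IsAlgebraic.trans K k B
    have hj : Function.Bijective j := by
      letI : Algebra B₀ B := (j : B₀ →+* B).toAlgebra
      haveI : IsScalarTower K B₀ B := IsScalarTower.of_algebraMap_eq fun x => (j.commutes x).symm
      haveI : Algebra.IsAlgebraic B₀ B := Algebra.IsAlgebraic.tower_top (K := K) B₀
      exact IsAlgClosed.algebraMap_bijective_of_isIntegral (k := B₀) (K := B)
    let J : B₀ ≃ₐ[K] B := AlgEquiv.ofBijective j hj
    have hJ : ∀ z, J z = j z := fun z => rfl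
    let f : (B₀ ≃ₐ[K] B₀) → (B ≃ₐ[k] B) := fun g =>
      { (J.symm.trans (g.trans J) : B ≃ₐ[K] B) with
        commutes' := fun x => by
          obtain ⟨c, rfl⟩ := hsurj x
          rw [← IsScalarTower.algebraMap_apply K k B]
          exact (J.symm.trans (g.trans J) : B ≃ₐ[K] B).commutes c }
    have hf : ∀ g x, f g x = J (g (J.symm x)) := fun g x => rfl
    let σ : (B₀ ≃ₐ[K] B₀) →* (B ≃ₐ[k] B) :=
      { toFun := f
        map_one' := by
          ext x
          rw [hf]
          simp
        map_mul' := fun g h => by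
          ext x
          rw [AlgEquiv.mul_apply, hf, hf, hf, AlgEquiv.mul_apply, AlgEquiv.symm_apply_apply] }
    have hσ : ∀ g x, σ g x = J (g (J.symm x)) := hf
    have hσj : ∀ g z, σ g (j z) = j (g z) := by
      intro g z
      rw [hσ, ← hJ, AlgEquiv.symm_apply_apply, hJ]
    have hB₀a : Algebra.IsAlgebraic K B₀ := IsAlgClosure.isAlgebraic
    have hcont : Continuous σ := continuous_of_smooth fun x => ⟨{J.symm x}, fun τ hτ => by
      rw [hσ, hτ _ (Finset.mem_singleton_self _), AlgEquiv.apply_symm_apply]⟩
    refine ⟨σ, hcont, hσj, ?_⟩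
    intro P m γ hP hm hγ
    have h1 : algebraMap k B (MvPolynomial.aeval t P) = algebraMap K B (MvPolynomial.eval a P) := by
      have h2 : MvPolynomial.aeval t P = algebraMap K k (MvPolynomial.eval a P) := by
        have h3 : t = fun i => algebraMap K k (a i) := funext fun i => i.elim0
        rw [h3, ← MvPolynomial.coe_aeval_eq_eval]
        exact MvPolynomial.aeval_algebraMap_apply (B := k) a P
      rw [h2, ← IsScalarTower.algebraMap_apply K k B]
    rw [h1] at hγ
    refine ⟨J.symm γ, ?_, fun g => ?_⟩
    · rw [← map_pow, hγ, AlgEquiv.commutes]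
    · have h4 : j (J.symm γ) = γ := by rw [← hJ, AlgEquiv.apply_symm_apply]
      have h5 : γ ≠ 0 := by
        intro h
        rw [h, zero_pow hm.ne'] at hγ
        exact hP ((_root_.map_eq_zero _).1 hγ.symm)
      rw [h4, div_self h5, map_one]
  | succ n ih =>
    intro K k B₀ B _ _ _ _ _ _ _ _ _ _ _ _ j t ht a
    have hB : IsAlgClosed B := IsAlgClosure.isAlgClosed k
    have hB₀a : Algebra.IsAlgebraic K B₀ := IsAlgClosure.isAlgebraic
    let k' : IntermediateField K k := IntermediateField.adjoin K (Set.range fun i : Fin n => t i.succ)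
    have hmem : ∀ i : Fin n, t i.succ ∈ k' := fun i => IntermediateField.subset_adjoin _ _ ⟨i, rfl⟩
    let t' : Fin n → k' := fun i => ⟨t i.succ, hmem i⟩
    haveI : IsScalarTower K k' B := IsScalarTower.of_algebraMap_eq fun c => by
      rw [IsScalarTower.algebraMap_apply K k B]
      rfl
    let B' : IntermediateField k' B := algebraicClosure k' B
    have ht' : RatFn K t' := by
      constructor
      · have h1 : AlgebraicIndependent K (fun i : Fin n => t i.succ) :=
          ht.1.comp _ (Fin.succ_injective n)
        exact AlgebraicIndependent.of_comp (IsScalarTower.toAlgHom K k' k) h1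
      · apply IntermediateField.map_injective k'.val
        rw [IntermediateField.adjoin_map, ← AlgHom.fieldRange_eq_map, IntermediateField.fieldRange_val]
        have h2 : (k'.val : k' → k) '' Set.range t' = Set.range fun i : Fin n => t i.succ := by
          rw [← Set.range_comp]
          rfl
        rw [h2]
    have ht0 : Transcendental k' (t 0) := by
      have h1 := ht.1.transcendental_adjoin (s := Set.range (Fin.succ : Fin n → Fin (n + 1))) (i := 0)
        (by
          rintro ⟨i, hi⟩
          exact Fin.succ_ne_zero i hi)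
      rw [← IntermediateField.transcendental_adjoin_iff, ← Set.range_comp] at h1
      exact h1
    have htop : IntermediateField.adjoin k' {t 0} = ⊤ := by
      apply IntermediateField.restrictScalars_injective K
      rw [IntermediateField.adjoin_adjoin_left, IntermediateField.restrictScalars_top, eq_top_iff, ← ht.2,
        IntermediateField.adjoin_le_iff]
      rintro _ ⟨i, rfl⟩
      refine Fin.cases ?_ (fun i => ?_) i
      · exact IntermediateField.subset_adjoin _ _ (Or.inr rfl)
      · exact IntermediateField.subset_adjoin _ _ (Or.inl ⟨i, rfl⟩)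
    -- the embedding of `B₀` in `B'`
    have hjm : ∀ z : B₀, j z ∈ B' := by
      intro z
      rw [mem_algebraicClosure_iff]
      have h1 : IsAlgebraic K (j z) := (Algebra.IsAlgebraic.isAlgebraic (R := K) z).algHom j
      exact h1.extendScalars (algebraMap K k').injective
    let j' : B₀ →ₐ[K] B' :=
      { toFun := fun z => ⟨j z, hjm z⟩
        map_one' := Subtype.ext (map_one j)
        map_mul' := fun x y => Subtype.ext (map_mul j x y)
        map_zero' := Subtype.ext (map_zero j)
        map_add' := fun x y => Subtype.ext (map_add j x y)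
        commutes' := fun c => Subtype.ext (by
          show j (algebraMap K B₀ c) = _
          rw [j.commutes]
          rfl) }
    haveI : CharZero k' := charZero_of_injective_algebraMap (algebraMap K k').injective
    obtain ⟨σ₁, hc1, hj1, h1⟩ := ih K k' B₀ B' j' t' ht' (fun i => a i.succ)
    obtain ⟨σ₂, hc2, hj2, h2⟩ := split1 k' k B' B (B'.val) (t 0) ht0 htop (algebraMap K k' (a 0))
    have hjj : ∀ z, B'.val (j' z) = j z := fun z => rfl
    refine ⟨σ₂.comp σ₁, hc2.comp hc1, fun g z => ?_, ?_⟩
    · show σ₂ (σ₁ g) (j z) = _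
      rw [← hjj, hj2, hj1, hjj]
    · intro P m γ hP hm hγ
      have h3 : MvPolynomial.eval (fun i : Fin n => a i.succ) (spec0 (a 0) P) ≠ 0 := by
        rw [eval_spec0]
        exact hP
      have h4 : (toPol k' t' P).eval (algebraMap K k' (a 0)) ≠ 0 := by
        rw [toPol_eval]
        intro h
        rw [← map_zero (MvPolynomial.aeval t' : MvPolynomial (Fin n) K →ₐ[K] k')] at h
        have h5 := ht'.1 h
        rw [h5, map_zero] at h3
        exact h3 rfl
      obtain ⟨r', hr', h6⟩ := h2 (toPol k' t' P) m γ h4 hm (by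
        rw [toPol_aeval k' t' t (fun i => rfl)]
        exact hγ)
      obtain ⟨r, hr, h7⟩ := h1 (spec0 (a 0) P) m r' h3 hm (by
        rw [hr', toPol_eval])
      refine ⟨r, ?_, fun g => ?_⟩
      · rw [hr, eval_spec0]
      · have hr'0 : r' ≠ 0 := by
          intro h
          rw [h, zero_pow hm.ne'] at hr'
          exact h4 ((_root_.map_eq_zero _).1 hr'.symm)
        have h8 : γ / j r = γ / B'.val r' * B'.val (r' / j' r) := by
          rw [map_div₀, hjj, div_mul_div_cancel₀ ((_root_.map_ne_zero _).2 hr'0)]
        show σ₂ (σ₁ g) (γ / j r) = _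
        rw [h8, map_mul, h6, hj2, h7]

end Pool.Agent.Zk17.FG
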